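import Pool.Agent.Helper23.Hyper.Perron

/-!
# Sharp explicit bounds for the extremal sequences
-/

namespace Pool.Agent.Helper69.CH

open Pool.Agent.Helper23.Hyper

/-- The greatest root is at least `2.5386`. -/
theorem root_ge'' {β : ℝ} (h : IsGreatest {z : ℝ | z ^ 8 - 8 * z ^ 6 + 10 * z ^ 4 + 1 = 0} β) :
    25386 / 10000 ≤ β := by
  have hcont : ContinuousOn (fun z : ℝ => z ^ 8 - 8 * z ^ 6 + 10 * z ^ 4 + 1)
      (Set.Icc (25386 / 10000) 3) := by
    fun_prop
  have := intermediate_value_Icc (by norm_num : (25386 / 10000 : ℝ) ≤ 3) hcont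
  have h0 : (0 : ℝ) ∈ Set.Icc ((25386 / 10000 : ℝ) ^ 8 - 8 * (25386 / 10000 : ℝ) ^ 6 +
      10 * (25386 / 10000 : ℝ) ^ 4 + 1) ((3 : ℝ) ^ 8 - 8 * (3 : ℝ) ^ 6 + 10 * (3 : ℝ) ^ 4 + 1) := by
    constructor <;> norm_num
  obtain ⟨z, hz, hz0⟩ := this h0
  exact hz.1.trans (h.2 hz0)

theorem quartic_of {β : ℝ} (h : IsGreatest {z : ℝ | z ^ 8 - 8 * z ^ 6 + 10 * z ^ 4 + 1 = 0} β) :
    β ^ 4 = 2 * β ^ 3 + 2 * β ^ 2 - 2 * β + 1 :=
  quartic_of_octic (by have := root_ge'' h; linarith) h.1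

/-- The greatest root is at most `2.53862`. -/
theorem root_le'' {β : ℝ} (h : IsGreatest {z : ℝ | z ^ 8 - 8 * z ^ 6 + 10 * z ^ 4 + 1 = 0} β) :
    β ≤ 253862 / 100000 := by
  have h4 := quartic_of h
  by_contra hcon
  push Not at hcon
  obtain ⟨t, ht, rfl⟩ : ∃ t : ℝ, 0 < t ∧ β = 253862 / 100000 + t :=
    ⟨β - 253862 / 100000, by linarith, by ring⟩
  nlinarith [pow_pos ht 2, pow_pos ht 3, pow_pos ht 4]

section

variable {β : ℝ} (hβ : IsGreatest {z : ℝ | z ^ 8 - 8 * z ^ 6 + 10 * z ^ 4 + 1 = 0} β)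

include hβ

/-- The cone from level 8 on. -/
theorem cone2 (m : ℕ) :
    (P (m + 8) : ℝ) ≤ 3139 / 10000 * β ^ (m + 8) ∧
    (Q (m + 8) : ℝ) ≤ 3139 / 10000 * β ^ (m + 8) * (β - 1) ∧
    (R (m + 8) : ℝ) ≤ 3139 / 10000 * β ^ (m + 8) * (β ^ 2 - 2 * β) ∧
    (S (m + 8) : ℝ) ≤ 3139 / 10000 * β ^ (m + 8) * (β ^ 3 - 2 * β ^ 2 - β) := by
  have h1 := root_ge'' hβ
  have h4 := quartic_of hβ
  induction m with
  | zero =>
    have hP : P (0 + 8) = 541 := by decide
    have hQ : Q (0 + 8) = 832 := by decide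
    have hR : R (0 + 8) = 740 := by decide
    have hS : S (0 + 8) = 504 := by decide
    have h41 : (172486 : ℝ) / 100 ≤ β ^ 8 := by
      calc (172486 : ℝ) / 100 ≤ (25386 / 10000) ^ 8 := by norm_num
        _ ≤ β ^ 8 := by gcongr
    have v1 : (15386 : ℝ) / 10000 ≤ β - 1 := by linarith
    have v2 : (136728 : ℝ) / 100000 ≤ β ^ 2 - 2 * β := by nlinarith
    have v3 : (9323 : ℝ) / 10000 ≤ β ^ 3 - 2 * β ^ 2 - β := by
      have : β ^ 3 - 2 * β ^ 2 - β = β * (β ^ 2 - 2 * β) - β := by ring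
      rw [this]
      nlinarith
    rw [hP, hQ, hR, hS]
    push_cast
    refine ⟨by nlinarith, ?_, ?_, ?_⟩
    · nlinarith [mul_le_mul h41 v1 (by norm_num) (by linarith)]
    · nlinarith [mul_le_mul h41 v2 (by norm_num) (by linarith)]
    · nlinarith [mul_le_mul h41 v3 (by norm_num) (by linarith)]
  | succ m ih =>
    obtain ⟨i1, i2, i3, i4⟩ := ih
    rw [show m + 1 + 8 = (m + 8) + 1 by ring, P_succ (m + 8), Q_succ (m + 8), R_succ (m + 8),
      S_succ (m + 8)]
    push_cast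
    rw [pow_succ]
    set b := β ^ (m + 8) with hb
    refine ⟨?_, ?_, ?_, ?_⟩
    · calc (P (m + 8) : ℝ) + Q (m + 8) ≤ 3139 / 10000 * b + 3139 / 10000 * b * (β - 1) := by linarith
        _ = _ := by ring
    · calc (P (m + 8) : ℝ) + Q (m + 8) + R (m + 8) ≤
          3139 / 10000 * b + 3139 / 10000 * b * (β - 1) + 3139 / 10000 * b * (β ^ 2 - 2 * β) := by
            linarith
        _ = _ := by ring
    · calc (P (m + 8) : ℝ) + Q (m + 8) + S (m + 8) ≤
          3139 / 10000 * b + 3139 / 10000 * b * (β - 1) +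
            3139 / 10000 * b * (β ^ 3 - 2 * β ^ 2 - β) := by linarith
        _ = _ := by ring
    · calc (P (m + 8) : ℝ) + R (m + 8) ≤
          3139 / 10000 * b + 3139 / 10000 * b * (β ^ 2 - 2 * β) := by linarith
        _ = 3139 / 10000 * b * (β ^ 2 - 2 * β + 1) := by ring
        _ = 3139 / 10000 * (b * β) * (β ^ 3 - 2 * β ^ 2 - β) := by
          rw [show 3139 / 10000 * (b * β) * (β ^ 3 - 2 * β ^ 2 - β) =
            3139 / 10000 * b * (β ^ 4 - 2 * β ^ 3 - β ^ 2) by ring, h4]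
          ring

theorem pow_ge (n : ℕ) (c : ℝ) (h : c ≤ (25386 / 10000 : ℝ) ^ n) : c ≤ β ^ n := by
  have h1 := root_ge'' hβ
  exact h.trans (by gcongr)

theorem P_le (l : ℕ) (hl : 2 ≤ l) : (P l : ℝ) ≤ 3139 / 10000 * β ^ l := by
  rcases Nat.lt_or_ge l 8 with h | h
  · interval_cases l
    · have := pow_ge hβ 2 (2 / (3139 / 10000)) (by norm_num)
      have e : P 2 = 2 := by decide
      rw [e]; push_cast; linarith
    · have := pow_ge hβ 3 (5 / (3139 / 10000)) (by norm_num)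
      have e : P 3 = 5 := by decide
      rw [e]; push_cast; linarith
    · have := pow_ge hβ 4 (13 / (3139 / 10000)) (by norm_num)
      have e : P 4 = 13 := by decide
      rw [e]; push_cast; linarith
    · have := pow_ge hβ 5 (33 / (3139 / 10000)) (by norm_num)
      have e : P 5 = 33 := by decide
      rw [e]; push_cast; linarith
    · have := pow_ge hβ 6 (84 / (3139 / 10000)) (by norm_num)
      have e : P 6 = 84 := by decide
      rw [e]; push_cast; linarith
    · have := pow_ge hβ 7 (213 / (3139 / 10000)) (by norm_num)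
      have e : P 7 = 213 := by decide
      rw [e]; push_cast; linarith
  · obtain ⟨m, rfl⟩ : ∃ m, l = m + 8 := ⟨l - 8, by omega⟩
    exact (cone2 hβ m).1

theorem Q_le_six (l : ℕ) (hl : 6 ≤ l) : (Q l : ℝ) ≤ 483 / 1000 * β ^ l := by
  rcases Nat.lt_or_ge l 8 with h | h
  · interval_cases l
    · have := pow_ge hβ 6 (129 / (483 / 1000)) (by norm_num)
      have e : Q 6 = 129 := by decide
      rw [e]; push_cast; linarith
    · have := pow_ge hβ 7 (328 / (483 / 1000)) (by norm_num)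
      have e : Q 7 = 328 := by decide
      rw [e]; push_cast; linarith
  · obtain ⟨m, rfl⟩ : ∃ m, l = m + 8 := ⟨l - 8, by omega⟩
    refine (cone2 hβ m).2.1.trans ?_
    have h1 := root_le'' hβ
    have h2 : 0 < β ^ (m + 8) := by
      have := root_ge'' hβ
      positivity
    nlinarith

theorem Q_le_four (l : ℕ) (hl : 4 ≤ l) : (Q l : ℝ) ≤ 4838 / 10000 * β ^ l := by
  rcases Nat.lt_or_ge l 6 with h | h
  · interval_cases l
    · have := pow_ge hβ 4 (20 / (4838 / 10000)) (by norm_num)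
      have e : Q 4 = 20 := by decide
      rw [e]; push_cast; linarith
    · have := pow_ge hβ 5 (51 / (4838 / 10000)) (by norm_num)
      have e : Q 5 = 51 := by decide
      rw [e]; push_cast; linarith
  · have h2 : 0 < β ^ l := by
      have := root_ge'' hβ
      positivity
    linarith [Q_le_six hβ l h]

theorem Q_le_two (l : ℕ) (hl : 2 ≤ l) : (Q l : ℝ) ≤ 4891 / 10000 * β ^ l := by
  rcases Nat.lt_or_ge l 4 with h | h
  · interval_cases l
    · have := pow_ge hβ 2 (3 / (4891 / 10000)) (by norm_num)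
      have e : Q 2 = 3 := by decide
      rw [e]; push_cast; linarith
    · have := pow_ge hβ 3 (8 / (4891 / 10000)) (by norm_num)
      have e : Q 3 = 8 := by decide
      rw [e]; push_cast; linarith
  · have h2 : 0 < β ^ l := by
      have := root_ge'' hβ
      positivity
    linarith [Q_le_four hβ l h]

end

end Pool.Agent.Helper69.CH
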