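import Pool.Agent.Helper23.Hyper.Bridge

/-!
# Blocks: sections of `{0, ±1, ±2}^n` for coefficient vectors made of blocks `b_j D_j`
-/

namespace Pool.Agent.Helper69.CH

open Pool.Agent.Helper23.Hyper

/-- The number of `x ∈ {-2, …, 2}^P` with `∑ x_p v_p = T`. -/
noncomputable def cntG {G P : Type*} [AddCommGroup G] [Fintype P] [DecidableEq P] (v : P → G) (T : G) : ℕ := by
  classical
  exact ((Fintype.piFinset fun _ : P => Finset.Icc (-2 : ℤ) 2).filter
    (fun x => ∑ p, x p • v p = T)).card

/-- No nontrivial relation with coefficients in `{-1, 0, 1}`. -/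
def Diss {G P : Type*} [AddCommGroup G] [Fintype P] (v : P → G) : Prop :=
  ∀ x : P → ℤ, (∀ p, |x p| ≤ 1) → ∑ p, x p • v p = 0 → x = 0

theorem block_sum {G J : Type*} [AddCommGroup G] [Fintype J] {l : J → ℕ}
    (D : ∀ j, Fin (l j) → ℤ) (b : J → G) (x : ((j : J) × Fin (l j)) → ℤ) :
    ∑ p : (j : J) × Fin (l j), x p • (D p.1 p.2 • b p.1) =
      ∑ j, (∑ i, D j i * x ⟨j, i⟩) • b j := by
  rw [Fintype.sum_sigma]
  apply Finset.sum_congr rfl
  intro j _
  rw [Finset.sum_smul]
  apply Finset.sum_congr rfl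
  intro i _
  rw [smul_smul, mul_comm]

theorem block_bound {G J : Type*} [AddCommGroup G] [Fintype J] [DecidableEq J] {l : J → ℕ}
    (D : ∀ j, Fin (l j) → ℤ) (b : J → G) (c N : J → ℕ)
    (hc : ∀ j, ∃ t : Fin (c j) → ℤ, ∀ x : Fin (l j) → ℤ, (∀ i, x i ∈ Finset.Icc (-2 : ℤ) 2) →
      ∃ (k : Fin (c j)) (e : Fin (l j) → ℤ), (∀ i, e i = 0 ∨ e i = 1) ∧
        ∑ i, D j i * x i = t k + ∑ i, D j i * e i)
    (hN : ∀ j y, secCount (D j) y ≤ N j)
    (hd : Diss (fun p : (j : J) × Fin (l j) => D p.1 p.2 • b p.1)) (T : G) :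
    cntG (fun p : (j : J) × Fin (l j) => D p.1 p.2 • b p.1) T ≤ ∏ j, (c j * N j) := by
  classical
  choose t ht using hc
  set box := (Fintype.piFinset fun _ : (j : J) × Fin (l j) => Finset.Icc (-2 : ℤ) 2) with hbox
  have hk : ∀ x : ((j : J) × Fin (l j)) → ℤ, ∃ k : ∀ j, Fin (c j), x ∈ box → ∀ j,
      ∃ e : Fin (l j) → ℤ, (∀ i, e i = 0 ∨ e i = 1) ∧
        ∑ i, D j i * x ⟨j, i⟩ = t j (k j) + ∑ i, D j i * e i := by
    intro x
    by_cases hx : x ∈ box
    · have h1 : ∀ j, ∃ (k : Fin (c j)) (e : Fin (l j) → ℤ), (∀ i, e i = 0 ∨ e i = 1) ∧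
          ∑ i, D j i * x ⟨j, i⟩ = t j k + ∑ i, D j i * e i := by
        intro j
        exact ht j (fun i => x ⟨j, i⟩) (fun i => by
          rw [hbox, Fintype.mem_piFinset] at hx
          exact hx _)
      choose k e h2 using h1
      exact ⟨k, fun _ j => ⟨e j, h2 j⟩⟩
    · have h1 : ∀ j, Nonempty (Fin (c j)) := by
        intro j
        obtain ⟨k, _⟩ := ht j (fun _ => 0) (fun i => by simp)
        exact ⟨k⟩
      exact ⟨fun j => (h1 j).some, fun h => absurd h hx⟩
  choose k hk using hk
  have hcard : cntG (fun p : (j : J) × Fin (l j) => D p.1 p.2 • b p.1) T =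
      ∑ κ : (∀ j, Fin (c j)), ((box.filter
        (fun x => ∑ p : (j : J) × Fin (l j), x p • (D p.1 p.2 • b p.1) = T)).filter
          (fun x => k x = κ)).card := by
    unfold cntG
    rw [Finset.card_eq_sum_card_fiberwise (f := k) (t := Finset.univ) (by
      intro x _; exact Finset.mem_coe.mpr (Finset.mem_univ _))]
  rw [hcard]
  have hone : ∀ κ : (∀ j, Fin (c j)), ((box.filter
        (fun x => ∑ p : (j : J) × Fin (l j), x p • (D p.1 p.2 • b p.1) = T)).filter
          (fun x => k x = κ)).card ≤ ∏ j, N j := by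
    intro κ
    set F := ((box.filter
        (fun x => ∑ p : (j : J) × Fin (l j), x p • (D p.1 p.2 • b p.1) = T)).filter
          (fun x => k x = κ)) with hF
    rcases F.eq_empty_or_nonempty with h0 | ⟨x₀, hx₀⟩
    · rw [h0]; simp
    · have key : ∀ x ∈ F, ∀ j, ∑ i, D j i * x ⟨j, i⟩ = ∑ i, D j i * x₀ ⟨j, i⟩ := by
        intro x hx
        rw [hF, Finset.mem_filter, Finset.mem_filter] at hx hx₀
        obtain ⟨⟨hx1, hx2⟩, hx3⟩ := hx
        obtain ⟨⟨hy1, hy2⟩, hy3⟩ := hx₀
        have e1 := hk x hx1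
        have e2 := hk x₀ hy1
        rw [hx3] at e1
        rw [hy3] at e2
        choose e he1 he2 using e1
        choose f hf1 hf2 using e2
        have hz : (fun p : (j : J) × Fin (l j) => e p.1 p.2 - f p.1 p.2) = 0 := by
          apply hd
          · intro p
            rcases he1 p.1 p.2 with h | h <;> rcases hf1 p.1 p.2 with h' | h' <;> rw [h, h'] <;> norm_num
          · rw [block_sum D b (fun p => e p.1 p.2 - f p.1 p.2)]
            have h3 : ∀ j, (∑ i, D j i * (e j i - f j i)) =
                (∑ i, D j i * x ⟨j, i⟩) - ∑ i, D j i * x₀ ⟨j, i⟩ := by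
              intro j
              rw [he2 j, hf2 j]
              simp only [mul_sub, Finset.sum_sub_distrib]
              ring
            simp only [h3, sub_smul, Finset.sum_sub_distrib]
            rw [← block_sum D b x, ← block_sum D b x₀, hx2, hy2, sub_self]
        intro j
        rw [he2 j, hf2 j]
        congr 1
        apply Finset.sum_congr rfl
        intro i _
        have := congrFun hz ⟨j, i⟩
        simp only [Pi.zero_apply] at this
        rw [sub_eq_zero.mp this]
      calc F.card ≤ (Fintype.piFinset (fun j => (Fintype.piFinset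
              (fun _ : Fin (l j) => Finset.Icc (-2 : ℤ) 2)).filter
                (fun x => ∑ i, D j i * x i = ∑ i, D j i * x₀ ⟨j, i⟩))).card := by
            apply Finset.card_le_card_of_injOn (fun x j i => x ⟨j, i⟩)
            · intro x hx
              rw [Finset.mem_coe] at hx
              rw [Finset.mem_coe, Fintype.mem_piFinset]
              intro j
              rw [Finset.mem_filter, Fintype.mem_piFinset]
              refine ⟨fun i => ?_, key x hx j⟩
              rw [hF, Finset.mem_filter, Finset.mem_filter, hbox, Fintype.mem_piFinset] at hx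
              exact hx.1.1 _
            · intro x _ y _ hxy
              funext p
              exact congrFun (congrFun hxy p.1) p.2
        _ = ∏ j, secCount (D j) (∑ i, D j i * x₀ ⟨j, i⟩) := by
            rw [Fintype.card_piFinset]
            rfl
        _ ≤ ∏ j, N j := Finset.prod_le_prod' (fun j _ => hN j _)
  calc _ ≤ ∑ _κ : (∀ j, Fin (c j)), ∏ j, N j := Finset.sum_le_sum (fun κ _ => hone κ)
    _ = ∏ j, (c j * N j) := by
      rw [Finset.sum_const, Finset.card_univ, Fintype.card_pi, smul_eq_mul, Finset.prod_mul_distrib]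
      simp

end Pool.Agent.Helper69.CH
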