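import Pool.Agent.Helper69.CH.Block
import Pool.Agent.Helper23.Hyper.Perron

/-!
# The doubling block `1, 2, 4, …, 2^(l-1)`: four translates, maximum `Q l`
-/

namespace Pool.Agent.Helper69.CH

open Pool.Agent.Helper23.Hyper

/-- Binary expansion. -/
theorem bin : ∀ (l : ℕ) (m : ℤ), 0 ≤ m → m < 2 ^ l →
    ∃ e : Fin l → ℤ, (∀ i, e i = 0 ∨ e i = 1) ∧ m = ∑ i : Fin l, (2 : ℤ) ^ (i : ℕ) * e i := by
  intro l
  induction l with
  | zero =>
    intro m h0 h1
    refine ⟨fun i => i.elim0, fun i => i.elim0, ?_⟩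
    simp at h1 ⊢
    omega
  | succ l ih =>
    intro m h0 h1
    obtain ⟨e, he, hm⟩ := ih (m / 2) (by omega) (by rw [pow_succ] at h1; omega)
    refine ⟨Fin.cons (m % 2) e, ?_, ?_⟩
    · intro i
      refine Fin.cases ?_ (fun i => ?_) i
      · simp only [Fin.cons_zero]; omega
      · simpa using he i
    · rw [Fin.sum_univ_succ]
      simp only [Fin.cons_zero, Fin.cons_succ, Fin.val_zero, pow_zero, one_mul, Fin.val_succ]
      have h2 : ∑ i : Fin l, (2 : ℤ) ^ ((i : ℕ) + 1) * e i = 2 * ∑ i : Fin l, (2 : ℤ) ^ (i : ℕ) * e i := by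
        rw [Finset.mul_sum]
        apply Finset.sum_congr rfl
        intro i _
        ring
      rw [h2, ← hm]
      omega

theorem sum_pow_two (l : ℕ) : ∑ i : Fin l, (2 : ℤ) ^ (i : ℕ) = 2 ^ l - 1 := by
  induction l with
  | zero => simp
  | succ l ih =>
    rw [Fin.sum_univ_castSucc]
    simp only [Fin.val_castSucc, Fin.val_last, ih]
    ring

theorem four_cells (l : ℕ) : ∃ t : Fin 4 → ℤ, ∀ x : Fin l → ℤ, (∀ i, x i ∈ Finset.Icc (-2 : ℤ) 2) →
      ∃ (k : Fin 4) (e : Fin l → ℤ), (∀ i, e i = 0 ∨ e i = 1) ∧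
        ∑ i : Fin l, (2 : ℤ) ^ (i : ℕ) * x i = t k + ∑ i : Fin l, (2 : ℤ) ^ (i : ℕ) * e i := by
  refine ⟨fun k => (k : ℕ) * 2 ^ l - 2 * (2 ^ l - 1), ?_⟩
  intro x hx
  set y := ∑ i : Fin l, (2 : ℤ) ^ (i : ℕ) * x i with hy
  have h1 : y ≤ 2 * (2 ^ l - 1) := by
    rw [← sum_pow_two l, Finset.mul_sum, hy]
    apply Finset.sum_le_sum
    intro i _
    have := (Finset.mem_Icc.mp (hx i)).2
    have h2 : (0 : ℤ) < 2 ^ (i : ℕ) := by positivity
    nlinarith
  have h2 : -(2 * (2 ^ l - 1)) ≤ y := by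
    rw [← sum_pow_two l, Finset.mul_sum, hy, ← Finset.sum_neg_distrib]
    apply Finset.sum_le_sum
    intro i _
    have := (Finset.mem_Icc.mp (hx i)).1
    have h2 : (0 : ℤ) < 2 ^ (i : ℕ) := by positivity
    nlinarith
  have hp : (0 : ℤ) < 2 ^ l := by positivity
  set m := y + 2 * (2 ^ l - 1) with hm
  have hq0 : 0 ≤ m / 2 ^ l := Int.ediv_nonneg (by omega) hp.le
  have hq1 : m / 2 ^ l < 4 := by
    apply Int.ediv_lt_of_lt_mul hp
    omega
  obtain ⟨e, he, hme⟩ := bin l (m % 2 ^ l) (Int.emod_nonneg _ hp.ne') (Int.emod_lt_of_pos _ hp)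
  refine ⟨⟨(m / 2 ^ l).toNat, by omega⟩, e, he, ?_⟩
  rw [← hme]
  have h3 := Int.emod_add_mul_ediv m (2 ^ l)
  have h4 : (((m / 2 ^ l).toNat : ℕ) : ℤ) = m / 2 ^ l := Int.toNat_of_nonneg hq0
  simp only [h4]
  rw [mul_comm (m / 2 ^ l)]
  linarith

theorem val_pow (j : ℕ) : padicValInt 2 ((2 : ℤ) ^ j) = j := by
  induction j with
  | zero => simp
  | succ j ih =>
    rw [pow_succ, mul_comm, val_double (by positivity), ih]

theorem pows_triangular (l : ℕ) : Triangular (fun i : Fin l => (2 : ℤ) ^ (i : ℕ)) := by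
  refine ⟨fun i => by positivity, Equiv.refl _, fun i => ⟨2, Nat.prime_two, ?_⟩⟩
  intro j hij
  simp only [Equiv.refl_apply, val_pow]
  exact hij

theorem chain_max {l : ℕ} (hl : 1 ≤ l) (y : ℤ) :
    secCount (fun i : Fin l => (2 : ℤ) ^ (i : ℕ)) y ≤ Q l := by
  have := secCount_le (fun i : Fin l => (2 : ℤ) ^ (i : ℕ)) (Function.Embedding.refl _) y hl
    (pows_triangular l)
  simpa using this

/-- Blocks that are doubling chains. -/
theorem chain_bound {G J : Type*} [AddCommGroup G] [Fintype J] [DecidableEq J] {l : J → ℕ}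
    (b : J → G) (hl : ∀ j, 1 ≤ l j)
    (hd : Diss (fun p : (j : J) × Fin (l j) => (2 : ℤ) ^ (p.2 : ℕ) • b p.1)) (T : G) :
    cntG (fun p : (j : J) × Fin (l j) => (2 : ℤ) ^ (p.2 : ℕ) • b p.1) T ≤ ∏ j, (4 * Q (l j)) :=
  block_bound (fun j => fun i : Fin (l j) => (2 : ℤ) ^ (i : ℕ)) b (fun _ => 4) (fun j => Q (l j))
    (fun j => four_cells (l j)) (fun j y => chain_max (hl j) y) hd T

end Pool.Agent.Helper69.CH
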