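import Pool.Agent.Helper69.CH.Chain

/-!
# Decomposition of a real coefficient vector into doubling chains
-/

namespace Pool.Agent.Helper69.CH

open Pool.Agent.Helper23.Hyper

section chains

variable {n : ℕ} (a : Fin n → ℝ)

/-- Indices whose double (up to sign) is not an entry. -/
abbrev Top : Type := {i : Fin n // ∀ j, |a j| ≠ 2 * |a i|}

theorem exists_len (h0 : ∀ k, a k ≠ 0) (i : Fin n) : ∃ m : ℕ, ∀ j, |a j| ≠ |a i| / 2 ^ m := by
  by_contra hcon
  push Not at hcon
  choose f hf using hcon
  have hinj : Function.Injective f := by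
    intro m m' h
    have h1 := hf m
    have h2 := hf m'
    rw [h, h2] at h1
    have hpos : 0 < |a i| := abs_pos.mpr (h0 i)
    rw [div_eq_div_iff (by positivity) (by positivity)] at h1
    have h3 : (2 : ℝ) ^ m = 2 ^ m' := mul_left_cancel₀ hpos.ne' h1
    exact_mod_cast pow_right_injective₀ (by norm_num : (0 : ℝ) < 2) (by norm_num) h3
  exact not_injective_infinite_finite f hinj

open Classical in
/-- Length of the chain below `i`. -/
noncomputable def len (h0 : ∀ k, a k ≠ 0) (i : Fin n) : ℕ := Nat.find (exists_len a h0 i)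

theorem len_pos (h0 : ∀ k, a k ≠ 0) (i : Fin n) : 1 ≤ len a h0 i := by
  classical
  rw [Nat.one_le_iff_ne_zero]
  intro h
  have h1 := Nat.find_spec (exists_len a h0 i)
  have h2 : Nat.find (exists_len a h0 i) = 0 := h
  rw [h2] at h1
  exact h1 i (by simp)

theorem lt_len (h0 : ∀ k, a k ≠ 0) (i : Fin n) (m : ℕ) (h : m < len a h0 i) :
    ∃ j, |a j| = |a i| / 2 ^ m := by
  classical
  have := Nat.find_min (exists_len a h0 i) h
  push Not at this
  exact this

theorem le_len (h0 : ∀ k, a k ≠ 0) (i : Fin n) (m : ℕ) (h : ∀ m' ≤ m, ∃ j, |a j| = |a i| / 2 ^ m') :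
    m < len a h0 i := by
  classical
  by_contra hcon
  push Not at hcon
  obtain ⟨j, hj⟩ := h _ hcon
  exact Nat.find_spec (exists_len a h0 i) j hj

theorem exists_top (h0 : ∀ k, a k ≠ 0) (k : Fin n) :
    ∃ (i : Top a) (m : ℕ), m < len a h0 i.1 ∧ |a k| = |a i.1| / 2 ^ m := by
  classical
  have hex : ∃ m : ℕ, ∀ j, |a j| ≠ 2 ^ (m + 1) * |a k| := by
    by_contra hcon
    push Not at hcon
    choose f hf using hcon
    have hinj : Function.Injective f := by
      intro m m' h
      have h1 := hf m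
      have h2 := hf m'
      rw [h, h2] at h1
      have hpos : 0 < |a k| := abs_pos.mpr (h0 k)
      have h3 : (2 : ℝ) ^ (m' + 1) = 2 ^ (m + 1) := mul_right_cancel₀ hpos.ne' h1
      have h4 : m' + 1 = m + 1 := pow_right_injective₀ (by norm_num : (0 : ℝ) < 2) (by norm_num) h3
      omega
    exact not_injective_infinite_finite f hinj
  set m := Nat.find hex with hm
  have hspec := Nat.find_spec hex
  rw [← hm] at hspec
  have hmin : ∀ m' ≤ m, ∃ j, |a j| = 2 ^ m' * |a k| := by
    intro m' hm'
    rcases Nat.eq_zero_or_pos m' with h | h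
    · subst h; exact ⟨k, by simp⟩
    · obtain ⟨m'', rfl⟩ : ∃ m'', m' = m'' + 1 := ⟨m' - 1, by omega⟩
      have := Nat.find_min hex (m := m'') (by omega)
      push Not at this
      exact this
  obtain ⟨i, hi⟩ := hmin m le_rfl
  have hp : (0 : ℝ) < 2 ^ m := by positivity
  refine ⟨⟨i, ?_⟩, m, ?_, ?_⟩
  · intro j hj
    apply hspec j
    rw [hj, hi]; ring
  · apply le_len
    intro m' hm'
    obtain ⟨j, hj⟩ := hmin (m - m') (Nat.sub_le _ _)
    refine ⟨j, ?_⟩
    rw [hj, hi]
    have h1 : (2 : ℝ) ^ m = 2 ^ (m - m') * 2 ^ m' := by rw [← pow_add]; congr 1; omega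
    rw [h1]
    field_simp
  · rw [hi]
    field_simp

theorem top_unique (h0 : ∀ k, a k ≠ 0) (i i' : Top a) (m m' : ℕ) (hm : m < len a h0 i.1)
    (hm' : m' < len a h0 i'.1) (hinj : ∀ j k, |a j| = |a k| → j = k)
    (h : |a i.1| / 2 ^ m = |a i'.1| / 2 ^ m') : i = i' ∧ m = m' := by
  wlog hle : m ≤ m' generalizing i i' m m'
  · have := this i' i m' m hm' hm h.symm (by omega)
    exact ⟨this.1.symm, this.2.symm⟩
  rcases eq_or_lt_of_le hle with heq | hlt
  · subst heq
    have h1 : |a i.1| = |a i'.1| := by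
      have : (2 : ℝ) ^ m ≠ 0 := by positivity
      rw [div_left_inj' this] at h
      exact h
    exact ⟨Subtype.ext (hinj _ _ h1), rfl⟩
  · exfalso
    obtain ⟨j, hj⟩ := lt_len a h0 i'.1 (m' - m - 1) (by omega)
    apply i.2 j
    rw [hj]
    have h1 : (2 : ℝ) ^ m' = 2 ^ (m' - m - 1) * 2 * 2 ^ m := by
      rw [← pow_succ, ← pow_add]; congr 1; omega
    rw [div_eq_div_iff (by positivity) (by positivity), h1] at h
    have h2 : |a i'.1| = |a i.1| * (2 ^ (m' - m - 1) * 2) := by
      have h3 : (0 : ℝ) < 2 ^ m := by positivity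
      apply mul_right_cancel₀ h3.ne'
      linarith
    rw [h2]
    field_simp

end chains

/-- The index set of the chain decomposition. -/
abbrev Idx {n : ℕ} (a : Fin n → ℝ) (h0 : ∀ k, a k ≠ 0) : Type :=
  (i : Top a) × Fin (len a h0 i.1)

theorem chain_equiv {n : ℕ} (a : Fin n → ℝ) (h0 : ∀ k, a k ≠ 0)
    (hinj : ∀ j k, |a j| = |a k| → j = k) :
    ∃ (e : Idx a h0 ≃ Fin n) (b : Top a → ℝ), ∀ p, |a (e p)| = 2 ^ (p.2 : ℕ) * b p.1 := by
  classical
  have h1 : ∀ p : Idx a h0, ∃ j, |a j| = |a p.1.1| / 2 ^ (len a h0 p.1.1 - 1 - p.2) := by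
    intro p
    have := len_pos a h0 p.1.1
    exact lt_len a h0 p.1.1 _ (by omega)
  choose f hf using h1
  have hbij : Function.Bijective f := by
    constructor
    · rintro ⟨i, k⟩ ⟨i', k'⟩ h
      have e1 := hf ⟨i, k⟩
      have e2 := hf ⟨i', k'⟩
      rw [h, e2] at e1
      have l1 := len_pos a h0 i.1
      have l2 := len_pos a h0 i'.1
      have := top_unique a h0 i i' (len a h0 i.1 - 1 - k) (len a h0 i'.1 - 1 - k')
        (by omega) (by omega) hinj e1.symm
      obtain ⟨h3, h4⟩ := this
      subst h3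
      have h5 : k = k' := by
        apply Fin.ext
        have := k.2
        have := k'.2
        omega
      subst h5
      rfl
    · intro k
      obtain ⟨i, m, hm, hk⟩ := exists_top a h0 k
      refine ⟨⟨i, ⟨len a h0 i.1 - 1 - m, by omega⟩⟩, ?_⟩
      apply hinj
      rw [hf, hk]
      congr 2
      show len a h0 i.1 - 1 - (len a h0 i.1 - 1 - m) = m
      omega
  refine ⟨Equiv.ofBijective f hbij, fun i => |a i.1| / 2 ^ (len a h0 i.1 - 1), ?_⟩
  intro p
  rw [Equiv.ofBijective_apply, hf]
  have hlt := p.2.2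
  have h2 : (2 : ℝ) ^ (len a h0 p.1.1 - 1) = 2 ^ (len a h0 p.1.1 - 1 - p.2) * 2 ^ (p.2 : ℕ) := by
    rw [← pow_add]; congr 1; omega
  simp only
  rw [h2]
  field_simp

/-- Relabelling and changing signs does not change the count. -/
theorem transport {n : ℕ} {P : Type*} [Fintype P] [DecidableEq P] (a : Fin n → ℝ) (v : P → ℝ)
    (e : P ≃ Fin n) (s : Fin n → ℤ) (hs : ∀ k, s k = 1 ∨ s k = -1)
    (hv : ∀ p, a (e p) = s (e p) * v p) (T : ℝ) :
    ((Fintype.piFinset fun _ : Fin n => Finset.Icc (-2 : ℤ) 2).filter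
      (fun x => ∑ i, a i * (x i : ℝ) = T)).card = cntG v T := by
  classical
  have hss : ∀ k, s k * s k = 1 := by
    intro k; rcases hs k with h | h <;> rw [h] <;> norm_num
  have hmem : ∀ k (y : ℤ), y ∈ Finset.Icc (-2 : ℤ) 2 → s k * y ∈ Finset.Icc (-2 : ℤ) 2 := by
    intro k y hy
    rw [Finset.mem_Icc] at hy ⊢
    rcases hs k with h | h <;> rw [h] <;> omega
  unfold cntG
  apply Finset.card_nbij' (i := fun x p => s (e p) * x (e p))
    (j := fun z k => s k * z (e.symm k))
  · intro x hx
    rw [Finset.mem_coe, Finset.mem_filter, Fintype.mem_piFinset] at hx ⊢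
    refine ⟨fun p => hmem _ _ (hx.1 _), ?_⟩
    rw [← hx.2, ← e.sum_comp]
    apply Finset.sum_congr rfl
    intro p _
    rw [hv p, zsmul_eq_mul]
    push_cast
    ring
  · intro z hz
    rw [Finset.mem_coe, Finset.mem_filter, Fintype.mem_piFinset] at hz ⊢
    refine ⟨fun k => hmem _ _ (hz.1 _), ?_⟩
    rw [← hz.2, ← e.sum_comp]
    apply Finset.sum_congr rfl
    intro p _
    simp only [Equiv.symm_apply_apply]
    rw [hv p, zsmul_eq_mul]
    push_cast
    have := hss (e p)
    have h1 : ((s (e p) : ℤ) : ℝ) * (s (e p) : ℤ) = 1 := by exact_mod_cast this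
    linear_combination (v p * (z p : ℝ)) * h1
  · intro x _
    funext k
    simp only [Equiv.apply_symm_apply]
    rw [← mul_assoc, hss, one_mul]
  · intro z _
    funext p
    simp only [Equiv.symm_apply_apply]
    rw [← mul_assoc, hss, one_mul]

theorem transport_diss {n : ℕ} {P : Type*} [Fintype P] (a : Fin n → ℝ) (v : P → ℝ)
    (e : P ≃ Fin n) (s : Fin n → ℤ) (hs : ∀ k, s k = 1 ∨ s k = -1)
    (hv : ∀ p, a (e p) = s (e p) * v p)
    (ha : ∀ x : Fin n → ℤ, (∀ i, |x i| ≤ 1) → ∑ i, a i * (x i : ℝ) = 0 → x = 0) : Diss v := by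
  intro z hz h0
  have hss : ∀ k, s k * s k = 1 := by
    intro k; rcases hs k with h | h <;> rw [h] <;> norm_num
  have h1 : (fun k => s k * z (e.symm k)) = 0 := by
    apply ha
    · intro k
      have := hz (e.symm k)
      rcases hs k with h | h <;> rw [h]
      · simpa using this
      · rw [neg_mul, one_mul, abs_neg]; exact this
    · rw [← h0, ← e.sum_comp]
      apply Finset.sum_congr rfl
      intro p _
      rw [hv p, zsmul_eq_mul, Equiv.symm_apply_apply]
      push_cast
      have := hss (e p)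
      have h1 : ((s (e p) : ℤ) : ℝ) * (s (e p) : ℤ) = 1 := by exact_mod_cast this
      linear_combination (v p * (z p : ℝ)) * h1
  funext p
  have h2 := congrFun h1 (e p)
  simp only [Equiv.symm_apply_apply, Pi.zero_apply] at h2
  rcases hs (e p) with h | h <;> rw [h] at h2 <;> simp only [Pi.zero_apply] <;> omega

/-- The bound in terms of chain lengths. -/
theorem real_bound {n : ℕ} (a : Fin n → ℝ)
    (ha : ∀ x : Fin n → ℤ, (∀ i, |x i| ≤ 1) → ∑ i, a i * (x i : ℝ) = 0 → x = 0) (T : ℝ) :
    ∃ l : Top a → ℕ, (∀ i, 1 ≤ l i) ∧ ∑ i, l i = n ∧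
      ((Fintype.piFinset fun _ : Fin n => Finset.Icc (-2 : ℤ) 2).filter
        (fun x => ∑ i, a i * (x i : ℝ) = T)).card ≤ ∏ i, (4 * Q (l i)) := by
  classical
  have h0 : ∀ k, a k ≠ 0 := by
    intro k hk
    have := ha (Pi.single k 1) (by
      intro i
      by_cases h : i = k
      · subst h; simp
      · rw [Pi.single_eq_of_ne h]; simp) (by
      rw [Finset.sum_eq_single k]
      · rw [hk]; simp
      · intro j _ hj; rw [Pi.single_eq_of_ne hj]; simp
      · simp)
    have h2 := congrFun this k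
    simp at h2
  have hinj : ∀ j k, |a j| = |a k| → j = k := by
    intro j k h
    by_contra hjk
    rcases abs_eq_abs.mp h with h1 | h1
    · have := ha (Pi.single j 1 - Pi.single k 1) (by
        intro i
        by_cases hi : i = j
        · subst hi; simp [Pi.single_eq_of_ne hjk]
        · by_cases hi' : i = k
          · subst hi'; simp [Pi.single_eq_of_ne hi]
          · simp [Pi.single_eq_of_ne hi, Pi.single_eq_of_ne hi']) (by
        simp only [Pi.sub_apply, Int.cast_sub, mul_sub, Finset.sum_sub_distrib]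
        rw [Finset.sum_eq_single j, Finset.sum_eq_single k]
        · simp [h1]
        · intro i _ hi; simp [Pi.single_eq_of_ne hi]
        · simp
        · intro i _ hi; simp [Pi.single_eq_of_ne hi]
        · simp)
      have h2 := congrFun this j
      simp [Pi.single_eq_of_ne hjk] at h2
    · have := ha (Pi.single j 1 + Pi.single k 1) (by
        intro i
        by_cases hi : i = j
        · subst hi; simp [Pi.single_eq_of_ne hjk]
        · by_cases hi' : i = k
          · subst hi'; simp [Pi.single_eq_of_ne hi]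
          · simp [Pi.single_eq_of_ne hi, Pi.single_eq_of_ne hi']) (by
        simp only [Pi.add_apply, Int.cast_add, mul_add, Finset.sum_add_distrib]
        rw [Finset.sum_eq_single j, Finset.sum_eq_single k]
        · simp [h1]
        · intro i _ hi; simp [Pi.single_eq_of_ne hi]
        · simp
        · intro i _ hi; simp [Pi.single_eq_of_ne hi]
        · simp)
      have h2 := congrFun this j
      simp [Pi.single_eq_of_ne hjk] at h2
  obtain ⟨e, b, heb⟩ := chain_equiv a h0 hinj
  set s : Fin n → ℤ := fun k => if 0 < a k then 1 else -1 with hsdef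
  have hs : ∀ k, s k = 1 ∨ s k = -1 := by
    intro k; simp only [hsdef]; split_ifs <;> simp
  have hv : ∀ p : Idx a h0, a (e p) = s (e p) * ((2 : ℤ) ^ (p.2 : ℕ) • b p.1) := by
    intro p
    rw [zsmul_eq_mul]
    push_cast
    rw [← heb p]
    simp only [hsdef]
    split_ifs with h
    · rw [abs_of_pos h]; simp
    · rw [abs_of_nonpos (not_lt.mp h)]; simp
  refine ⟨fun i => len a h0 i.1, fun i => len_pos a h0 i.1, ?_, ?_⟩
  · have := Fintype.card_congr e
    rw [Fintype.card_sigma, Fintype.card_fin] at this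
    simpa using this
  · rw [transport a (fun p : Idx a h0 => (2 : ℤ) ^ (p.2 : ℕ) • b p.1) e s hs hv T]
    exact chain_bound b (fun i => len_pos a h0 i.1)
      (transport_diss a _ e s hs hv ha) T

theorem card_top {n : ℕ} (a : Fin n → ℝ) :
    Fintype.card (Top a) = (Finset.univ.filter
      (fun i : Fin n => ∀ j, a j ≠ 2 * a i ∧ a j ≠ -(2 * a i))).card := by
  classical
  rw [Fintype.card_subtype]
  congr 1
  apply Finset.filter_congr
  intro i _
  apply forall_congr'
  intro j
  rw [show (2 : ℝ) * |a i| = |2 * a i| by rw [abs_mul]; norm_num, Ne, abs_eq_abs, not_or]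

end Pool.Agent.Helper69.CH
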