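import Pool.Agent.Helper23.Hyper.Perron

/-!
# Explicit bounds for the extremal sequences
-/

namespace Pool.Agent.Helper69.CH

open Pool.Agent.Helper23.Hyper

/-- The greatest root is at least `507/200`. -/
theorem root_ge' {β : ℝ} (h : IsGreatest {z : ℝ | z ^ 8 - 8 * z ^ 6 + 10 * z ^ 4 + 1 = 0} β) :
    507 / 200 ≤ β := by
  have hcont : ContinuousOn (fun z : ℝ => z ^ 8 - 8 * z ^ 6 + 10 * z ^ 4 + 1) (Set.Icc (507 / 200) 3) := by
    fun_prop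
  have := intermediate_value_Icc (by norm_num : (507 / 200 : ℝ) ≤ 3) hcont
  have h0 : (0 : ℝ) ∈ Set.Icc ((507 / 200 : ℝ) ^ 8 - 8 * (507 / 200 : ℝ) ^ 6 + 10 * (507 / 200 : ℝ) ^ 4 + 1)
      ((3 : ℝ) ^ 8 - 8 * (3 : ℝ) ^ 6 + 10 * (3 : ℝ) ^ 4 + 1) := by
    constructor <;> norm_num
  obtain ⟨z, hz, hz0⟩ := this h0
  exact hz.1.trans (h.2 hz0)

theorem root_le {β : ℝ} (h4 : β ^ 4 = 2 * β ^ 3 + 2 * β ^ 2 - 2 * β + 1) : β ≤ 254 / 100 := by
  by_contra hcon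
  push Not at hcon
  obtain ⟨t, ht, rfl⟩ : ∃ t : ℝ, 0 < t ∧ β = 254 / 100 + t := ⟨β - 254 / 100, by linarith, by ring⟩
  have h5 : 0 < t ^ 4 + t ^ 3 + t ^ 2 + t := by positivity
  nlinarith [pow_pos ht 2, pow_pos ht 3, pow_pos ht 4]

/-- The cone. -/
theorem cone {β : ℝ} (hβ : 507 / 200 ≤ β) (h4 : β ^ 4 = 2 * β ^ 3 + 2 * β ^ 2 - 2 * β + 1) (m : ℕ) :
    (P (m + 4) : ℝ) ≤ 13 / 40 * β ^ (m + 4) ∧
    (Q (m + 4) : ℝ) ≤ 13 / 40 * β ^ (m + 4) * (β - 1) ∧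
    (R (m + 4) : ℝ) ≤ 13 / 40 * β ^ (m + 4) * (β ^ 2 - 2 * β) ∧
    (S (m + 4) : ℝ) ≤ 13 / 40 * β ^ (m + 4) * (β ^ 3 - 2 * β ^ 2 - β) := by
  induction m with
  | zero =>
    have hP : P (0 + 4) = 13 := by decide
    have hQ : Q (0 + 4) = 20 := by decide
    have hR : R (0 + 4) = 18 := by decide
    have hS : S (0 + 4) = 12 := by decide
    have h41 : (4129 : ℝ) / 100 ≤ β ^ 4 := by
      calc (4129 : ℝ) / 100 ≤ (507 / 200) ^ 4 := by norm_num
        _ ≤ β ^ 4 := by gcongr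
    have v1 : (153 : ℝ) / 100 ≤ β - 1 := by linarith
    have v2 : (13562 : ℝ) / 10000 ≤ β ^ 2 - 2 * β := by nlinarith
    have v3 : (9031 : ℝ) / 10000 - 1 / 10000 ≤ β ^ 3 - 2 * β ^ 2 - β := by
      have : β ^ 3 - 2 * β ^ 2 - β = β * (β ^ 2 - 2 * β) - β := by ring
      rw [this]
      nlinarith
    rw [hP, hQ, hR, hS]
    push_cast
    refine ⟨by nlinarith, ?_, ?_, ?_⟩
    · nlinarith [mul_le_mul h41 v1 (by norm_num) (by linarith)]
    · nlinarith [mul_le_mul h41 v2 (by norm_num) (by linarith)]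
    · nlinarith [mul_le_mul h41 v3 (by norm_num) (by linarith)]
  | succ m ih =>
    obtain ⟨i1, i2, i3, i4⟩ := ih
    have e : β ^ (m + 1 + 4) = β ^ (m + 4) * β := by ring
    rw [show m + 1 + 4 = (m + 4) + 1 by ring, P_succ (m + 4), Q_succ (m + 4), R_succ (m + 4), S_succ (m + 4)]
    push_cast
    rw [pow_succ]
    set b := β ^ (m + 4) with hb
    refine ⟨?_, ?_, ?_, ?_⟩
    · calc (P (m + 4) : ℝ) + Q (m + 4) ≤ 13 / 40 * b + 13 / 40 * b * (β - 1) := by linarith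
        _ = _ := by ring
    · calc (P (m + 4) : ℝ) + Q (m + 4) + R (m + 4) ≤
          13 / 40 * b + 13 / 40 * b * (β - 1) + 13 / 40 * b * (β ^ 2 - 2 * β) := by linarith
        _ = _ := by ring
    · calc (P (m + 4) : ℝ) + Q (m + 4) + S (m + 4) ≤
          13 / 40 * b + 13 / 40 * b * (β - 1) + 13 / 40 * b * (β ^ 3 - 2 * β ^ 2 - β) := by linarith
        _ = _ := by ring
    · calc (P (m + 4) : ℝ) + R (m + 4) ≤ 13 / 40 * b + 13 / 40 * b * (β ^ 2 - 2 * β) := by linarith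
        _ = 13 / 40 * b * (β ^ 2 - 2 * β + 1) := by ring
        _ = 13 / 40 * (b * β) * (β ^ 3 - 2 * β ^ 2 - β) := by
          rw [show 13 / 40 * (b * β) * (β ^ 3 - 2 * β ^ 2 - β) =
            13 / 40 * b * (β ^ 4 - 2 * β ^ 3 - β ^ 2) by ring, h4]
          ring

/-- `R + Q + 2P ≤ (8/5) β^l`. -/
theorem class_le {β : ℝ} (hβ : IsGreatest {z : ℝ | z ^ 8 - 8 * z ^ 6 + 10 * z ^ 4 + 1 = 0} β)
    (l : ℕ) (hl : 1 ≤ l) : (R l : ℝ) + Q l + 2 * P l ≤ 8 / 5 * β ^ l := by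
  have h1 := root_ge' hβ
  have h4 := quartic_of_octic (by linarith) hβ.1
  have h5 := root_le h4
  rcases Nat.lt_or_ge l 4 with h | h
  · have hb2 : (25 : ℝ) / 4 ≤ β ^ 2 := by nlinarith
    have hb3 : (125 : ℝ) / 8 ≤ β ^ 3 := by
      calc (125 : ℝ) / 8 = (5 / 2) ^ 3 := by norm_num
        _ ≤ β ^ 3 := by gcongr; linarith
    interval_cases l
    · have hP : P 1 = 1 := by decide
      have hQ : Q 1 = 1 := by decide
      have hR : R 1 = 1 := by decide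
      rw [hP, hQ, hR, pow_one]; push_cast; linarith
    · have hP : P 2 = 2 := by decide
      have hQ : Q 2 = 3 := by decide
      have hR : R 2 = 3 := by decide
      rw [hP, hQ, hR]; push_cast; linarith
    · have hP : P 3 = 5 := by decide
      have hQ : Q 3 = 8 := by decide
      have hR : R 3 = 7 := by decide
      rw [hP, hQ, hR]; push_cast; linarith
  · obtain ⟨m, rfl⟩ : ∃ m, l = m + 4 := ⟨l - 4, by omega⟩
    obtain ⟨i1, i2, i3, _⟩ := cone h1 h4 m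
    have hp : 0 < β ^ (m + 4) := by positivity
    have h6 : 13 / 40 * (β ^ 2 - β + 1) ≤ 8 / 5 := by nlinarith
    calc (R (m + 4) : ℝ) + Q (m + 4) + 2 * P (m + 4) ≤
        13 / 40 * β ^ (m + 4) * (β ^ 2 - 2 * β) + 13 / 40 * β ^ (m + 4) * (β - 1) +
          2 * (13 / 40 * β ^ (m + 4)) := by linarith
      _ = 13 / 40 * (β ^ 2 - β + 1) * β ^ (m + 4) := by ring
      _ ≤ 8 / 5 * β ^ (m + 4) := by gcongr

end Pool.Agent.Helper69.CH
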